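import Pool.Agent.H67.AG.T1
import Pool.Agent.H67.AG.T3
import Pool.Agent.H67.AG.T6

/-!
ABSOLUTE GAP (`MP_c59857_nt`), section 6.2: row S2 (the relation holds for the shifted selection,
uniformly in the shift).
-/

set_option autoImplicit false

open MeasureTheory ProbabilityTheory Filter Topology Finset
open scoped Nat ENNReal

namespace Pool.Agent.H32.AG

open Pool.Agent.H24.T2 (Pset)
open Pool.Agent.H67.AG

/-! ### elementary lemmas -/

theorem s2_meas_sel {α β ι : Type} [MeasurableSpace α] [MeasurableSpace β] [Fintype ι]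
    [DecidableEq ι] [MeasurableSpace ι] [MeasurableSingletonClass ι] {J : α → ι}
    (hJ : Measurable J) {C : ι → β → ℝ} (hC : ∀ j, Measurable (C j)) {h : α → β}
    (hh : Measurable h) : Measurable fun a => C (J a) (h a) := by
  have : (fun a => C (J a) (h a)) = fun a => ∑ j, if J a = j then C j (h a) else 0 := by
    funext a
    simp
  rw [this]
  exact Finset.measurable_sum _ fun j _ =>
    Measurable.ite (hJ (measurableSet_singleton j)) ((hC j).comp hh) measurable_const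

theorem s2_shift_sum (f : ℕ → ℝ) (hf : ∀ n, |f n| ≤ 1) (N t : ℕ) :
    |∑ l ∈ range N, f l - ∑ l ∈ range N, f (l + t)| ≤ 2 * t := by
  induction t with
  | zero => simp
  | succ t ih =>
    have h1 : ∑ l ∈ range N, f (l + t) - ∑ l ∈ range N, f (l + (t + 1)) = f t - f (N + t) := by
      have h2 := Finset.sum_range_sub' (fun l => f (l + t)) N
      rw [← Finset.sum_sub_distrib]
      simp only [Nat.zero_add] at h2
      rw [← h2]
      refine Finset.sum_congr rfl fun l _ => ?_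
      congr 2
      ring
    have h3 : |f t - f (N + t)| ≤ 2 := by
      have := abs_sub (f t) (f (N + t))
      linarith [hf t, hf (N + t)]
    have h4 : ∑ l ∈ range N, f l - ∑ l ∈ range N, f (l + (t + 1)) =
        (∑ l ∈ range N, f l - ∑ l ∈ range N, f (l + t)) + (f t - f (N + t)) := by
      rw [← h1]
      ring
    rw [h4]
    refine (abs_add_le _ _).trans ?_
    push_cast
    linarith

theorem s2_av_shift {Ω : Type} [MeasurableSpace Ω] (T : Ω ≃ᵐ Ω) (W N t : ℕ) (f : Ω → ℝ)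
    (hf : ∀ ω, |f ω| ≤ 1) (ω : Ω) :
    |Av T W N f ω - Av T W N f (T^[W * t] ω)| ≤ 2 * t / N := by
  have h := s2_shift_sum (fun l => f (T^[W * l] ω)) (fun l => hf _) N t
  have h2 : ∑ l ∈ range N, f (T^[W * l] (T^[W * t] ω)) = ∑ l ∈ range N, f (T^[W * (l + t)] ω) := by
    refine Finset.sum_congr rfl fun l _ => ?_
    rw [← Function.iterate_add_apply, ← mul_add]
  unfold Av
  rw [h2, ← sub_div, abs_div, Nat.abs_cast]
  exact div_le_div_of_nonneg_right h (Nat.cast_nonneg N)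

theorem s2_av_bd {Ω : Type} [MeasurableSpace Ω] (T : Ω ≃ᵐ Ω) (W N : ℕ) (f : Ω → ℝ)
    (hf : ∀ ω, |f ω| ≤ 1) (ω : Ω) : |Av T W N f ω| ≤ 1 := by
  unfold Av
  rw [abs_div, Nat.abs_cast]
  refine div_le_one_of_le₀ ?_ (Nat.cast_nonneg N)
  refine (Finset.abs_sum_le_sum_abs _ _).trans ?_
  refine (Finset.sum_le_sum fun l _ => hf _).trans ?_
  simp

theorem s2_iter_meas {Ω : Type} [MeasurableSpace Ω] (T : Ω ≃ᵐ Ω) (n : ℕ) : Measurable (T^[n]) :=
  T.measurable.iterate n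

theorem s2_av_meas {Ω : Type} [MeasurableSpace Ω] (T : Ω ≃ᵐ Ω) (W N : ℕ) (f : Ω → ℝ)
    (hf : Measurable f) : Measurable (Av T W N f) := by
  unfold Av
  exact (Finset.measurable_sum _ fun l _ => hf.comp (s2_iter_meas T _)).div_const _

theorem s2_int {Ω : Type} [MeasurableSpace Ω] {P : Measure Ω} [IsFiniteMeasure P] {f : Ω → ℝ}
    (hf : Measurable f) {C : ℝ} (hC : ∀ ω, |f ω| ≤ C) : Integrable f P :=
  Integrable.of_bound hf.aestronglyMeasurable C (Eventually.of_forall fun ω => by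
    rw [Real.norm_eq_abs]
    exact hC ω)

theorem s2_pre {Ω : Type} [MeasurableSpace Ω] (T : Ω ≃ᵐ Ω) (W : ℕ) (A : Set Ω)
    (hA : MeasurableSet[Inv T W] A) (l : ℕ) : (T^[W * l]) ⁻¹' A = A := by
  have h0 : (T^[W]) ⁻¹' A = A := hA.2
  induction l with
  | zero => simp
  | succ l ih =>
    have : (T^[W * (l + 1)]) = (T^[W * l]) ∘ (T^[W]) := by
      rw [mul_add, mul_one, Function.iterate_add]
    rw [this, Set.preimage_comp, ih, h0]

theorem s2_shift {Ω : Type} [MeasurableSpace Ω] (P : Measure Ω) (T : Ω ≃ᵐ Ω)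
    (hT : MeasurePreserving T P P) (W : ℕ) (A : Set Ω) (hA : MeasurableSet[Inv T W] A) (l : ℕ)
    {F : Ω → ℝ} (hF : Measurable F) :
    ∫ ω in A, F (T^[W * l] ω) ∂P = ∫ ω in A, F ω ∂P := by
  have h := (hT.iterate (W * l)).restrict_preimage (s := A) hA.1
  rw [s2_pre T W A hA l] at h
  conv_rhs => rw [← h.map_eq]
  rw [integral_map h.measurable.aemeasurable hF.aestronglyMeasurable]

/-! ### the products -/

section sec

variable {d : Sw} (e : SwE d)

/-- the indices selected along the prime `p` -/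
def Jx (p : ℕ) (ω : e.Ω) : Fin d.k → Fin d.n := fun i => e.s (e.T^[(p - 1) * d.β i] ω)

theorem Jx_meas (p : ℕ) : Measurable (Jx e p) :=
  measurable_pi_iff.2 fun _ => e.sm.comp (s2_iter_meas e.T _)

theorem FF_meas (p : ℕ) (j : Fin d.k → Fin d.n) : Measurable (d.FF p j) := by
  unfold Sw.FF
  exact Finset.measurable_prod _ fun i _ => ((d.hy (j i)).1 i).comp (s2_iter_meas d.T' _)

theorem FF_val (p : ℕ) (j : Fin d.k → Fin d.n) (ω : d.Ω') : d.FF p j ω = 1 ∨ d.FF p j ω = -1 := by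
  unfold Sw.FF
  have h : ∀ (s : Finset (Fin d.k)), (∏ i ∈ s, d.y (j i) i (d.T'^[(p - 1) * d.β i] ω) = 1) ∨
      (∏ i ∈ s, d.y (j i) i (d.T'^[(p - 1) * d.β i] ω) = -1) := by
    intro s
    induction s using Finset.induction_on with
    | empty => left; simp
    | insert a s ha ih =>
      rw [Finset.prod_insert ha]
      rcases (d.hy (j a)).2 a (d.T'^[(p - 1) * d.β a] ω) with h1 | h1 <;>
        rcases ih with h2 | h2 <;> rw [h1, h2] <;> norm_num
  exact h _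

theorem FF_bd (p : ℕ) (j : Fin d.k → Fin d.n) (ω : d.Ω') : |d.FF p j ω| ≤ 1 := by
  rcases FF_val p j ω with h | h <;> rw [h] <;> simp

/-- the product of the values of the shifted selection -/
def Ph (p t : ℕ) (ω : e.Ω) : ℝ := d.FF p (Jx e p (e.T^[d.W * t] ω)) (e.g ω)

/-- the same with an average -/
noncomputable def Ps (L p t : ℕ) (ω : e.Ω) : ℝ :=
  Av d.T' d.W L (d.FF p (Jx e p (e.T^[d.W * t] ω))) (e.g ω)

theorem g_iter (n : ℕ) (ω : e.Ω) : e.g (e.T^[n] ω) = d.T'^[n] (e.g ω) := by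
  induction n generalizing ω with
  | zero => rfl
  | succ n ih =>
    rw [Function.iterate_succ_apply, Function.iterate_succ_apply, ih, e.fac.2]

theorem Ph_eq (p t : ℕ) (ω : e.Ω) : ∏ i, e.yt t i (e.T^[(p - 1) * d.β i] ω) = Ph e p t ω := by
  unfold SwE.yt Ph Sw.FF Jx
  refine Finset.prod_congr rfl fun i _ => ?_
  rw [g_iter, ← Function.iterate_add_apply, ← Function.iterate_add_apply, add_comm]

theorem Ph_eq0 (p : ℕ) (ω : e.Ω) : ∏ i, e.ys i (e.T^[(p - 1) * d.β i] ω) = Ph e p 0 ω := by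
  rw [← Ph_eq]
  refine Finset.prod_congr rfl fun i _ => ?_
  unfold SwE.yt SwE.ys
  simp

theorem Ph_meas (p t : ℕ) : Measurable (Ph e p t) := by
  unfold Ph
  exact s2_meas_sel (C := fun j => d.FF p j) ((Jx_meas e p).comp (s2_iter_meas e.T _))
    (fun j => FF_meas p j) e.fac.1.measurable

theorem Ps_meas (L p t : ℕ) : Measurable (Ps e L p t) := by
  unfold Ps
  exact s2_meas_sel (C := fun j => Av d.T' d.W L (d.FF p j))
    ((Jx_meas e p).comp (s2_iter_meas e.T _)) (fun j => s2_av_meas _ _ _ _ (FF_meas p j))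
    e.fac.1.measurable

theorem Ph_bd (p t : ℕ) (ω : e.Ω) : |Ph e p t ω| ≤ 1 := FF_bd _ _ _

theorem Ps_bd (L p t : ℕ) (ω : e.Ω) : |Ps e L p t ω| ≤ 1 := s2_av_bd _ _ _ _ (FF_bd _ _) _

theorem mv_meas (l : ℕ) : Measurable (e.mv l) := by
  classical
  have h : MeasurableSet {ω | e.s (e.T^[d.W * l] ω) = e.s ω} :=
    measurableSet_eq_fun (e.sm.comp (s2_iter_meas e.T _)) e.sm
  have h2 : e.mv l = fun ω => if ω ∈ {ω | e.s (e.T^[d.W * l] ω) = e.s ω} then (0 : ℝ) else 1 := by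
    funext ω
    unfold SwE.mv
    by_cases h3 : e.s (e.T^[d.W * l] ω) = e.s ω
    · rw [if_pos h3]
      exact (if_pos h3).symm
    · rw [if_neg h3]
      exact (if_neg h3).symm
  rw [h2]
  exact Measurable.ite h measurable_const measurable_const

theorem mv_nn (l : ℕ) (ω : e.Ω) : 0 ≤ e.mv l ω := by
  unfold SwE.mv
  split_ifs <;> norm_num

theorem mv_bd (l : ℕ) (ω : e.Ω) : |e.mv l ω| ≤ 1 := by
  unfold SwE.mv
  split_ifs <;> norm_num

/-- a change of the selected indices is seen by `mv` -/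
theorem Jx_move (p l : ℕ) (c : (Fin d.k → Fin d.n) → ℝ) (hc : ∀ j, |c j| ≤ 1) (ω : e.Ω) :
    |c (Jx e p (e.T^[d.W * l] ω)) - c (Jx e p ω)| ≤
      2 * ∑ i, e.mv l (e.T^[(p - 1) * d.β i] ω) := by
  by_cases h : Jx e p (e.T^[d.W * l] ω) = Jx e p ω
  · rw [h, sub_self, abs_zero]
    exact mul_nonneg (by norm_num) (Finset.sum_nonneg fun i _ => mv_nn e _ _)
  · have h1 : ∃ i, e.s (e.T^[(p - 1) * d.β i] (e.T^[d.W * l] ω)) ≠
        e.s (e.T^[(p - 1) * d.β i] ω) := by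
      by_contra h2
      exact h (funext fun i => by
        by_contra h3
        exact h2 ⟨i, h3⟩)
    obtain ⟨i, hi⟩ := h1
    have h3 : e.mv l (e.T^[(p - 1) * d.β i] ω) = 1 := by
      unfold SwE.mv
      rw [if_neg]
      rw [← Function.iterate_add_apply, add_comm, Function.iterate_add_apply]
      exact hi
    have h4 : 1 ≤ ∑ i, e.mv l (e.T^[(p - 1) * d.β i] ω) := by
      rw [← h3]
      exact Finset.single_le_sum (f := fun i => e.mv l (e.T^[(p - 1) * d.β i] ω))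
        (fun i _ => mv_nn e _ _) (Finset.mem_univ i)
    have h5 := abs_sub (c (Jx e p (e.T^[d.W * l] ω))) (c (Jx e p ω))
    linarith [hc (Jx e p (e.T^[d.W * l] ω)), hc (Jx e p ω)]

/-- step 1 -/
theorem step1 (L p t : ℕ) (A : Set e.Ω) (hL : 0 < L) (hA : MeasurableSet[Inv e.T d.W] A)
    (hp : d.W ∣ p - 1) :
    |∫ ω in A, Ph e p t ω ∂e.P - ∫ ω in A, Ps e L p t ω ∂e.P| ≤
      2 * d.k / (L : ℝ) * ∑ l ∈ range L, ∫ ω in A, e.mv l ω ∂e.P := by
  obtain ⟨q, hq⟩ := hp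
  have hL' : (0 : ℝ) < L := by exact_mod_cast hL
  have h1 : ∫ ω in A, Ph e p t ω ∂e.P =
      (∑ l ∈ range L, ∫ ω in A, Ph e p t (e.T^[d.W * l] ω) ∂e.P) / L := by
    rw [Finset.sum_congr rfl fun l _ => s2_shift e.P e.T e.mp d.W A hA l (Ph_meas e p t)]
    rw [Finset.sum_const, Finset.card_range, nsmul_eq_mul]
    field_simp
  have hG : ∀ l, Measurable fun ω =>
      d.FF p (Jx e p (e.T^[d.W * t] ω)) (d.T'^[d.W * l] (e.g ω)) := by
    intro l
    exact s2_meas_sel (C := fun j ω' => d.FF p j (d.T'^[d.W * l] ω'))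
      ((Jx_meas e p).comp (s2_iter_meas e.T _))
      (fun j => (FF_meas p j).comp (s2_iter_meas d.T' _)) e.fac.1.measurable
  have h2 : ∫ ω in A, Ps e L p t ω ∂e.P =
      (∑ l ∈ range L, ∫ ω in A, d.FF p (Jx e p (e.T^[d.W * t] ω)) (d.T'^[d.W * l] (e.g ω)) ∂e.P)
        / L := by
    rw [← integral_finsetSum _ fun l _ => s2_int (hG l) (fun ω => FF_bd _ _ _), ← integral_div]
    rfl
  rw [h1, h2, ← sub_div, ← Finset.sum_sub_distrib, abs_div, Nat.abs_cast,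
    div_le_iff₀ hL']
  refine (Finset.abs_sum_le_sum_abs _ _).trans ?_
  have h3 : 2 * (d.k : ℝ) / (L : ℝ) * (∑ l ∈ range L, ∫ ω in A, e.mv l ω ∂e.P) * L =
      ∑ l ∈ range L, 2 * (d.k : ℝ) * ∫ ω in A, e.mv l ω ∂e.P := by
    rw [← Finset.mul_sum]
    field_simp
  rw [h3]
  refine Finset.sum_le_sum fun l _ => ?_
  have hI1 : Integrable (fun ω => Ph e p t (e.T^[d.W * l] ω)) (e.P.restrict A) :=
    s2_int ((Ph_meas e p t).comp (s2_iter_meas e.T _)) (fun ω => Ph_bd e p t _)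
  have hI2 : Integrable (fun ω => d.FF p (Jx e p (e.T^[d.W * t] ω)) (d.T'^[d.W * l] (e.g ω)))
      (e.P.restrict A) := s2_int (hG l) (fun ω => FF_bd _ _ _)
  rw [← integral_sub hI1 hI2]
  refine (abs_integral_le_integral_abs).trans ?_
  have h4 : ∀ i : Fin d.k, ∫ ω in A, e.mv l (e.T^[d.W * (q * d.β i + t)] ω) ∂e.P =
      ∫ ω in A, e.mv l ω ∂e.P := fun i => s2_shift e.P e.T e.mp d.W A hA _ (mv_meas e l)
  have hI3 : ∀ i ∈ (Finset.univ : Finset (Fin d.k)),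
      Integrable (fun ω => e.mv l (e.T^[d.W * (q * d.β i + t)] ω)) (e.P.restrict A) :=
    fun i _ => s2_int ((mv_meas e l).comp (s2_iter_meas e.T _)) (fun ω => mv_bd e l _)
  have h5 : 2 * (d.k : ℝ) * ∫ ω in A, e.mv l ω ∂e.P =
      ∫ ω in A, 2 * ∑ i, e.mv l (e.T^[d.W * (q * d.β i + t)] ω) ∂e.P := by
    rw [integral_const_mul, integral_finsetSum _ hI3, Finset.sum_congr rfl fun i _ => h4 i,
      Finset.sum_const, Finset.card_univ, Fintype.card_fin, nsmul_eq_mul]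
    ring
  rw [h5]
  refine integral_mono (hI1.sub hI2).abs ((integrable_finsetSum _ hI3).const_mul 2) fun ω => ?_
  change |Ph e p t (e.T^[d.W * l] ω) -
    d.FF p (Jx e p (e.T^[d.W * t] ω)) (d.T'^[d.W * l] (e.g ω))| ≤
    2 * ∑ i, e.mv l (e.T^[d.W * (q * d.β i + t)] ω)
  have h6 := Jx_move e p l (fun j => d.FF p j (d.T'^[d.W * l] (e.g ω))) (fun j => FF_bd _ _ _)
    (e.T^[d.W * t] ω)
  have h7 : ∀ i : Fin d.k, e.T^[(p - 1) * d.β i] (e.T^[d.W * t] ω) =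
      e.T^[d.W * (q * d.β i + t)] ω := by
    intro i
    rw [← Function.iterate_add_apply, hq]
    congr 1
    ring
  simp only [h7] at h6
  refine le_trans (le_of_eq ?_) h6
  unfold Ph
  rw [g_iter, ← Function.iterate_add_apply, ← Function.iterate_add_apply, add_comm (d.W * t)]

/-- step 2 -/
theorem step2 (L L'' p t : ℕ) (A : Set e.Ω) (hA : MeasurableSet[Inv e.T d.W] A) :
    |∫ ω in A, Ps e L p t ω ∂e.P - ∫ ω in A, Ps e L p 0 ω ∂e.P| ≤
      2 * ∑ j : Fin d.k → Fin d.n, ∫ ω in A, |Av d.T' d.W L (d.FF p j) (e.g ω) -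
        Av d.T' d.W L'' (d.FF p j) (e.g ω)| ∂e.P + 2 * t / (L'' : ℝ) := by
  have h0 : ∫ ω in A, Ps e L p 0 ω ∂e.P = ∫ ω in A, Ps e L p 0 (e.T^[d.W * t] ω) ∂e.P :=
    (s2_shift e.P e.T e.mp d.W A hA t (Ps_meas e L p 0)).symm
  rw [h0]
  set G : (Fin d.k → Fin d.n) → e.Ω → ℝ := fun j ω => |Av d.T' d.W L (d.FF p j) (e.g ω) -
        Av d.T' d.W L'' (d.FF p j) (e.g ω)| with hG
  have hGm : ∀ j, Measurable (G j) := fun j =>
    (((s2_av_meas _ _ _ _ (FF_meas p j)).comp e.fac.1.measurable).sub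
      ((s2_av_meas _ _ _ _ (FF_meas p j)).comp e.fac.1.measurable)).abs
  have hGb : ∀ j ω, |G j ω| ≤ 2 := by
    intro j ω
    rw [hG]
    simp only [abs_abs]
    have := abs_sub (Av d.T' d.W L (d.FF p j) (e.g ω)) (Av d.T' d.W L'' (d.FF p j) (e.g ω))
    linarith [s2_av_bd d.T' d.W L _ (FF_bd p j) (e.g ω),
      s2_av_bd d.T' d.W L'' _ (FF_bd p j) (e.g ω)]
  have hG0 : ∀ j ω, 0 ≤ G j ω := fun j ω => abs_nonneg _
  have hI1 : Integrable (fun ω => Ps e L p t ω) (e.P.restrict A) :=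
    s2_int (Ps_meas e L p t) (fun ω => Ps_bd e L p t _)
  have hI2 : Integrable (fun ω => Ps e L p 0 (e.T^[d.W * t] ω)) (e.P.restrict A) :=
    s2_int ((Ps_meas e L p 0).comp (s2_iter_meas e.T _)) (fun ω => Ps_bd e L p 0 _)
  rw [← integral_sub hI1 hI2]
  refine (abs_integral_le_integral_abs).trans ?_
  have hI3 : ∀ j ∈ (Finset.univ : Finset (Fin d.k → Fin d.n)),
      Integrable (fun ω => G j ω) (e.P.restrict A) := fun j _ => s2_int (hGm j) (hGb j)
  have hI4 : ∀ j ∈ (Finset.univ : Finset (Fin d.k → Fin d.n)),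
      Integrable (fun ω => G j (e.T^[d.W * t] ω)) (e.P.restrict A) := fun j _ =>
    s2_int ((hGm j).comp (s2_iter_meas e.T _)) (fun ω => hGb j _)
  have hI5 : Integrable (fun _ : e.Ω => 2 * (t : ℝ) / (L'' : ℝ)) (e.P.restrict A) :=
    integrable_const _
  have h1 : ∫ ω in A, (∑ j, G j ω + ∑ j, G j (e.T^[d.W * t] ω) + 2 * (t : ℝ) / (L'' : ℝ)) ∂e.P ≤
      2 * ∑ j, ∫ ω in A, G j ω ∂e.P + 2 * t / (L'' : ℝ) := by
    have e1 : ∫ ω in A, (∑ j, G j ω + ∑ j, G j (e.T^[d.W * t] ω) + 2 * (t : ℝ) / (L'' : ℝ)) ∂e.P =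
        ∫ ω in A, (∑ j, G j ω + ∑ j, G j (e.T^[d.W * t] ω)) ∂e.P +
          ∫ _ω in A, 2 * (t : ℝ) / (L'' : ℝ) ∂e.P :=
      integral_add (f := fun ω => ∑ j, G j ω + ∑ j, G j (e.T^[d.W * t] ω))
        (g := fun _ => 2 * (t : ℝ) / (L'' : ℝ))
        ((integrable_finsetSum _ hI3).add (integrable_finsetSum _ hI4)) hI5
    have e2 : ∫ ω in A, (∑ j, G j ω + ∑ j, G j (e.T^[d.W * t] ω)) ∂e.P =
        ∫ ω in A, ∑ j, G j ω ∂e.P + ∫ ω in A, ∑ j, G j (e.T^[d.W * t] ω) ∂e.P :=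
      integral_add (integrable_finsetSum _ hI3) (integrable_finsetSum _ hI4)
    rw [e1, e2, integral_finsetSum _ hI3, integral_finsetSum _ hI4,
      Finset.sum_congr rfl fun j _ => s2_shift e.P e.T e.mp d.W A hA t (hGm j)]
    have h2 : ∫ _ω in A, 2 * (t : ℝ) / (L'' : ℝ) ∂e.P ≤ 2 * t / (L'' : ℝ) := by
      rw [integral_const, smul_eq_mul]
      have h3 : (e.P.restrict A).real Set.univ ≤ 1 := by
        rw [measureReal_restrict_apply_univ]
        exact measureReal_le_one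
      have h4 : (0 : ℝ) ≤ 2 * t / (L'' : ℝ) := by positivity
      calc (e.P.restrict A).real Set.univ * (2 * (t : ℝ) / (L'' : ℝ))
          ≤ 1 * (2 * (t : ℝ) / (L'' : ℝ)) := mul_le_mul_of_nonneg_right h3 h4
        _ = _ := one_mul _
    linarith
  refine le_trans ?_ h1
  refine integral_mono (hI1.sub hI2).abs (((integrable_finsetSum _ hI3).add
    (integrable_finsetSum _ hI4)).add hI5) fun ω => ?_
  change |Ps e L p t ω - Ps e L p 0 (e.T^[d.W * t] ω)| ≤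
    ∑ j, G j ω + ∑ j, G j (e.T^[d.W * t] ω) + 2 * (t : ℝ) / (L'' : ℝ)
  unfold Ps
  simp only [Nat.mul_zero, Function.iterate_zero, id_eq]
  set j := Jx e p (e.T^[d.W * t] ω) with hj
  have h5 : G j ω ≤ ∑ j, G j ω :=
    Finset.single_le_sum (f := fun j => G j ω) (fun i _ => hG0 _ _) (Finset.mem_univ j)
  have h6 : G j (e.T^[d.W * t] ω) ≤ ∑ j, G j (e.T^[d.W * t] ω) :=
    Finset.single_le_sum (f := fun j => G j (e.T^[d.W * t] ω)) (fun i _ => hG0 _ _)
      (Finset.mem_univ j)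
  have h7 := s2_av_shift d.T' d.W L'' t (d.FF p j) (FF_bd p j) (e.g ω)
  rw [← g_iter] at h7
  have h8 : |Av d.T' d.W L (d.FF p j) (e.g ω) -
      Av d.T' d.W L (d.FF p j) (e.g (e.T^[d.W * t] ω))| ≤ G j ω +
      |Av d.T' d.W L'' (d.FF p j) (e.g ω) - Av d.T' d.W L'' (d.FF p j) (e.g (e.T^[d.W * t] ω))| +
      G j (e.T^[d.W * t] ω) := by
    have h9 : Av d.T' d.W L (d.FF p j) (e.g ω) -
      Av d.T' d.W L (d.FF p j) (e.g (e.T^[d.W * t] ω)) =
      (Av d.T' d.W L (d.FF p j) (e.g ω) - Av d.T' d.W L'' (d.FF p j) (e.g ω)) +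
      (Av d.T' d.W L'' (d.FF p j) (e.g ω) - Av d.T' d.W L'' (d.FF p j) (e.g (e.T^[d.W * t] ω))) -
      (Av d.T' d.W L (d.FF p j) (e.g (e.T^[d.W * t] ω)) -
        Av d.T' d.W L'' (d.FF p j) (e.g (e.T^[d.W * t] ω))) := by ring
    rw [h9]
    refine (abs_sub _ _).trans ?_
    exact add_le_add (abs_add_le _ _) le_rfl
  linarith

theorem bd_real (y : Fin d.k → e.Ω → ℝ) (p t : ℕ) (A : Set e.Ω)
    (hy : ∀ ω, ∏ i, y i (e.T^[(p - 1) * d.β i] ω) = Ph e p t ω) :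
    e.P.real (A ∩ bd e.T d.β d.σ y p) =
      (e.P.real A - d.σ * ∫ ω in A, Ph e p t ω ∂e.P) / 2 := by
  have h0 : bd e.T d.β d.σ y p = {ω | Ph e p t ω ≠ d.σ} := by
    ext ω
    change ∏ i, y i (e.T^[(p - 1) * d.β i] ω) ≠ d.σ ↔ Ph e p t ω ≠ d.σ
    rw [hy]
  have hm : MeasurableSet {ω | Ph e p t ω ≠ d.σ} :=
    (measurableSet_eq_fun (Ph_meas e p t) measurable_const).compl
  rw [h0]
  have h1 : e.P.real (A ∩ {ω | Ph e p t ω ≠ d.σ}) =
      ∫ ω in A, ({ω | Ph e p t ω ≠ d.σ} : Set e.Ω).indicator (fun _ => (1 : ℝ)) ω ∂e.P := by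
    rw [integral_indicator_const _ hm, smul_eq_mul, mul_one, measureReal_restrict_apply hm,
      Set.inter_comm]
  rw [h1]
  have h2 : ∀ ω, ({ω | Ph e p t ω ≠ d.σ} : Set e.Ω).indicator (fun _ => (1 : ℝ)) ω =
      (1 - d.σ * Ph e p t ω) / 2 := by
    intro ω
    have h3 : Ph e p t ω = 1 ∨ Ph e p t ω = -1 := FF_val _ _ _
    by_cases h4 : Ph e p t ω = d.σ
    · rw [Set.indicator_of_notMem (by simpa using h4), h4]
      rcases d.σv with h5 | h5 <;> rw [h5] <;> norm_num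
    · rw [Set.indicator_of_mem (by simpa using h4)]
      rcases d.σv with h5 | h5 <;> rcases h3 with h6 | h6
      · exact absurd (h6.trans h5.symm) h4
      · rw [h5, h6]
        norm_num
      · rw [h5, h6]
        norm_num
      · exact absurd (h6.trans h5.symm) h4
  simp only [h2]
  rw [integral_div, integral_sub (integrable_const _)
    ((s2_int (Ph_meas e p t) (Ph_bd e p t)).const_mul _), integral_const_mul, integral_const,
    smul_eq_mul, mul_one, measureReal_restrict_apply_univ]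

/-- the estimate for one prime -/
theorem one_prime (L L'' p t : ℕ) (A : Set e.Ω) (hL : 0 < L) (hA : MeasurableSet[Inv e.T d.W] A)
    (hp : d.W ∣ p - 1) :
    e.P.real (A ∩ bd e.T d.β d.σ (e.yt t) p) ≤ e.P.real (A ∩ bd e.T d.β d.σ e.ys p) +
      2 * d.k / (L : ℝ) * ∑ l ∈ range L, ∫ ω in A, e.mv l ω ∂e.P +
      ∑ j : Fin d.k → Fin d.n, ∫ ω in A, |Av d.T' d.W L (d.FF p j) (e.g ω) -
        Av d.T' d.W L'' (d.FF p j) (e.g ω)| ∂e.P + t / (L'' : ℝ) := by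
  rw [bd_real e (e.yt t) p t A (Ph_eq e p t), bd_real e e.ys p 0 A (Ph_eq0 e p)]
  have h1 := step1 e L p t A hL hA hp
  have h2 := step1 e L p 0 A hL hA hp
  have h3 := step2 e L L'' p t A hA
  set a := ∫ ω in A, Ph e p t ω ∂e.P
  set b := ∫ ω in A, Ph e p 0 ω ∂e.P
  set a' := ∫ ω in A, Ps e L p t ω ∂e.P
  set b' := ∫ ω in A, Ps e L p 0 ω ∂e.P
  set M := 2 * (d.k : ℝ) / (L : ℝ) * ∑ l ∈ range L, ∫ ω in A, e.mv l ω ∂e.P
  set N := ∑ j : Fin d.k → Fin d.n, ∫ ω in A, |Av d.T' d.W L (d.FF p j) (e.g ω) -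
        Av d.T' d.W L'' (d.FF p j) (e.g ω)| ∂e.P
  have h4 : 2 * (t : ℝ) / (L'' : ℝ) = 2 * (t / (L'' : ℝ)) := by ring
  rw [h4] at h3
  rw [abs_le] at h1 h2 h3
  rcases d.σv with h5 | h5 <;> rw [h5] <;> linarith [h1.1, h1.2, h2.1, h2.2, h3.1, h3.2]

end sec

/-! ### averages over primes -/

theorem s2_avgP_mono (W m : ℕ) (F G : ℕ → ℝ) (h : ∀ p ∈ Pset W m, F p ≤ G p) :
    avgP W m F ≤ avgP W m G := by
  unfold avgP
  exact div_le_div_of_nonneg_right (Finset.sum_le_sum h) (Nat.cast_nonneg _)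

theorem s2_avgP_add (W m : ℕ) (F G : ℕ → ℝ) :
    avgP W m (fun p => F p + G p) = avgP W m F + avgP W m G := by
  unfold avgP
  rw [Finset.sum_add_distrib, add_div]

theorem s2_avgP_sum {ι : Type} [Fintype ι] (W m : ℕ) (F : ι → ℕ → ℝ) :
    avgP W m (fun p => ∑ j, F j p) = ∑ j, avgP W m (F j) := by
  unfold avgP
  rw [Finset.sum_comm, Finset.sum_div]

theorem s2_avgP_const (W m : ℕ) (c : ℝ) (hc : 0 ≤ c) : avgP W m (fun _ => c) ≤ c := by
  unfold avgP
  rw [Finset.sum_const, nsmul_eq_mul]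
  by_cases h : ((Pset W m).card : ℝ) = 0
  · rw [h]
    simpa using hc
  · rw [mul_comm, mul_div_assoc, div_self h, mul_one]

theorem s2_avgP_bd (W m : ℕ) (F : ℕ → ℝ) (C : ℝ) (hC : 0 ≤ C) (h : ∀ p, |F p| ≤ C) :
    |avgP W m F| ≤ C := by
  unfold avgP
  rw [abs_div, Nat.abs_cast]
  refine div_le_of_le_mul₀ (Nat.cast_nonneg _) hC ?_
  refine (Finset.abs_sum_le_sum_abs _ _).trans ?_
  refine (Finset.sum_le_sum fun p _ => h p).trans ?_
  rw [Finset.sum_const, nsmul_eq_mul, mul_comm]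

theorem s2_dvd {W m p : ℕ} (hp : p ∈ Pset W m) : W ∣ p - 1 := by
  have h := (Finset.mem_filter.1 hp).2
  exact (Nat.modEq_iff_dvd' h.1.one_le).1 h.2.symm

theorem pf_S2 (hul : T_UL) (_hpn : T_PN) : T_S2 := by
  intro d e L t A hL hA
  obtain ⟨_, hmono, hadd, _, hconst⟩ := hul d.U
  obtain ⟨hlim', hmono', hadd', _, hconst'⟩ := hul (hyperfilter ℕ)
  set c₁ : ℝ := 2 * d.k / (L : ℝ) * ∑ l ∈ range L, ∫ ω in A, e.mv l ω ∂e.P with hc₁
  have hc₁0 : 0 ≤ c₁ := by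
    refine mul_nonneg (by positivity) (Finset.sum_nonneg fun l _ => ?_)
    exact integral_nonneg fun ω => mv_nn e l ω
  set h : (Fin d.k → Fin d.n) → ℕ → ℕ → ℝ := fun j L'' m => avgP d.W m fun p =>
    ∫ ω in A, |Av d.T' d.W L (d.FF p j) (e.g ω) - Av d.T' d.W L'' (d.FF p j) (e.g ω)| ∂e.P with hh
  have hint0 : ∀ (j : Fin d.k → Fin d.n) (L'' p : ℕ),
      |∫ ω in A, |Av d.T' d.W L (d.FF p j) (e.g ω) - Av d.T' d.W L'' (d.FF p j) (e.g ω)| ∂e.P| ≤
        2 := by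
    intro j L'' p
    have hb : ∀ ω, ‖|Av d.T' d.W L (d.FF p j) (e.g ω) - Av d.T' d.W L'' (d.FF p j) (e.g ω)|‖ ≤
        2 := by
      intro ω
      rw [Real.norm_eq_abs, abs_abs]
      have := abs_sub (Av d.T' d.W L (d.FF p j) (e.g ω)) (Av d.T' d.W L'' (d.FF p j) (e.g ω))
      linarith [s2_av_bd d.T' d.W L _ (FF_bd p j) (e.g ω),
        s2_av_bd d.T' d.W L'' _ (FF_bd p j) (e.g ω)]
    have h1 := norm_integral_le_of_norm_le_const (μ := e.P.restrict A)
      (Eventually.of_forall hb)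
    rw [Real.norm_eq_abs, measureReal_restrict_apply_univ] at h1
    have h2 : e.P.real A ≤ 1 := measureReal_le_one
    linarith
  have hhb : ∀ j L'' m, |h j L'' m| ≤ 2 := fun j L'' m =>
    s2_avgP_bd _ _ _ 2 (by norm_num) (fun p => hint0 j L'' p)
  have hPb : ∀ (y : Fin d.k → e.Ω → ℝ) (m : ℕ),
      |avgP d.W m fun p => e.P.real (A ∩ bd e.T d.β d.σ y p)| ≤ 1 := fun y m =>
    s2_avgP_bd _ _ _ 1 (by norm_num) (fun p => by
      rw [abs_of_nonneg measureReal_nonneg]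
      exact measureReal_le_one)
  -- the inequality for every `m` and `L''`
  have key : ∀ L'' m : ℕ, avgP d.W m (fun p => e.P.real (A ∩ bd e.T d.β d.σ (e.yt t) p)) ≤
      avgP d.W m (fun p => e.P.real (A ∩ bd e.T d.β d.σ e.ys p)) +
        (c₁ + t / (L'' : ℝ)) + ∑ j, h j L'' m := by
    intro L'' m
    have h1 := s2_avgP_mono d.W m _ _ (fun p hp => one_prime e L L'' p t A hL hA (s2_dvd hp))
    refine h1.trans ((s2_avgP_mono d.W m _ (fun p => (e.P.real (A ∩ bd e.T d.β d.σ e.ys p) +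
        (c₁ + t / (L'' : ℝ))) + ∑ j : Fin d.k → Fin d.n, ∫ ω in A,
        |Av d.T' d.W L (d.FF p j) (e.g ω) - Av d.T' d.W L'' (d.FF p j) (e.g ω)| ∂e.P)
        (fun p _ => le_of_eq (by rw [hc₁]; ring))).trans ?_)
    rw [s2_avgP_add, s2_avgP_add, s2_avgP_sum]
    have h3 := s2_avgP_const d.W m (c₁ + t / (L'' : ℝ)) (by positivity)
    exact add_le_add (add_le_add le_rfl h3) le_rfl
  -- the limit over `m`
  have hsumb : ∀ (L'' : ℕ) (s : Finset (Fin d.k → Fin d.n)), ∃ C, ∀ m, |∑ j ∈ s, h j L'' m| ≤ C :=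
    fun L'' s => ⟨∑ _j ∈ s, 2, fun m => (Finset.abs_sum_le_sum_abs _ _).trans
      (Finset.sum_le_sum fun j _ => hhb j L'' m)⟩
  have hsum : ∀ (L'' : ℕ) (s : Finset (Fin d.k → Fin d.n)),
      ul d.U (fun m => ∑ j ∈ s, h j L'' m) = ∑ j ∈ s, ul d.U (h j L'') := by
    intro L'' s
    induction s using Finset.induction_on with
    | empty => simpa using hconst 0
    | insert a s ha ih =>
      simp only [Finset.sum_insert ha]
      rw [hadd (fun m => h a L'' m) (fun m => ∑ j ∈ s, h j L'' m) ⟨2, hhb a L''⟩ (hsumb L'' s), ih]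
  have hl1 : ∀ L'' : ℕ, Lam d.U d.W e.P e.T d.β d.σ (e.yt t) A ≤
      Lam d.U d.W e.P e.T d.β d.σ e.ys A + (c₁ + t / (L'' : ℝ)) + ∑ j, ul d.U (h j L'') := by
    intro L''
    unfold Lam
    have hb1 : ∃ C, ∀ m, |avgP d.W m (fun p => e.P.real (A ∩ bd e.T d.β d.σ (e.yt t) p))| ≤ C :=
      ⟨1, hPb _⟩
    have hb2 : ∃ C, ∀ m, |avgP d.W m (fun p => e.P.real (A ∩ bd e.T d.β d.σ e.ys p))| ≤ C :=
      ⟨1, hPb _⟩
    have hb3 : ∃ C : ℝ, ∀ _m : ℕ, |c₁ + t / (L'' : ℝ)| ≤ C := ⟨_, fun _ => le_rfl⟩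
    have hb4 : ∃ C, ∀ m, |avgP d.W m (fun p => e.P.real (A ∩ bd e.T d.β d.σ e.ys p)) +
        (c₁ + t / (L'' : ℝ))| ≤ C := by
      refine ⟨1 + |c₁ + t / (L'' : ℝ)|, fun m => (abs_add_le _ _).trans ?_⟩
      linarith [hPb e.ys m]
    have hb5 : ∃ C, ∀ m, |avgP d.W m (fun p => e.P.real (A ∩ bd e.T d.β d.σ e.ys p)) +
        (c₁ + t / (L'' : ℝ)) + ∑ j, h j L'' m| ≤ C := by
      obtain ⟨C1, hC1⟩ := hb4
      obtain ⟨C2, hC2⟩ := hsumb L'' Finset.univ
      exact ⟨C1 + C2, fun m => (abs_add_le _ _).trans (add_le_add (hC1 m) (hC2 m))⟩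
    refine (hmono _ _ hb1 hb5 (Eventually.of_forall fun m => key L'' m)).trans ?_
    rw [hadd _ _ hb4 (hsumb L'' Finset.univ), hadd _ _ hb2 hb3, hconst, hsum]
  -- the limit over `L''`
  have hub : ∀ j L'', |ul d.U (h j L'')| ≤ 2 := by
    intro j L''
    have h1 := hmono (h j L'') (fun _ => 2) ⟨2, hhb j L''⟩ ⟨2, fun _ => by norm_num⟩
      (Eventually.of_forall fun m => (abs_le.1 (hhb j L'' m)).2)
    have h2 := hmono (fun _ => -2) (h j L'') ⟨2, fun _ => by norm_num⟩ ⟨2, hhb j L''⟩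
      (Eventually.of_forall fun m => (abs_le.1 (hhb j L'' m)).1)
    rw [hconst] at h1 h2
    exact abs_le.2 ⟨h2, h1⟩
  have hsumb' : ∀ (s : Finset (Fin d.k → Fin d.n)), ∃ C, ∀ L'', |∑ j ∈ s, ul d.U (h j L'')| ≤ C :=
    fun s => ⟨∑ _j ∈ s, 2, fun L'' => (Finset.abs_sum_le_sum_abs _ _).trans
      (Finset.sum_le_sum fun j _ => hub j L'')⟩
  have hsum' : ∀ (s : Finset (Fin d.k → Fin d.n)),
      ul (hyperfilter ℕ) (fun L'' => ∑ j ∈ s, ul d.U (h j L'')) =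
        ∑ j ∈ s, ul (hyperfilter ℕ) fun L'' => ul d.U (h j L'') := by
    intro s
    induction s using Finset.induction_on with
    | empty => simpa using hconst' 0
    | insert a s ha ih =>
      simp only [Finset.sum_insert ha]
      rw [hadd' (fun L'' => ul d.U (h a L'')) (fun L'' => ∑ j ∈ s, ul d.U (h j L''))
        ⟨2, hub a⟩ (hsumb' s), ih]
  have ht0 : ul (hyperfilter ℕ) (fun L'' : ℕ => (t : ℝ) / (L'' : ℝ)) = 0 := by
    have hbt : ∃ C, ∀ L'' : ℕ, |(t : ℝ) / (L'' : ℝ)| ≤ C := by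
      refine ⟨t, fun L'' => ?_⟩
      rw [abs_of_nonneg (by positivity)]
      rcases Nat.eq_zero_or_pos L'' with h0 | h0
      · rw [h0]
        simp
      · exact div_le_self (Nat.cast_nonneg t) (by exact_mod_cast h0)
    have h1 := hlim' _ hbt
    have h2 : Tendsto (fun L'' : ℕ => (t : ℝ) / (L'' : ℝ)) (hyperfilter ℕ : Filter ℕ) (𝓝 0) :=
      (tendsto_const_div_atTop_nhds_zero_nat (t : ℝ)).mono_left Nat.hyperfilter_le_atTop
    exact tendsto_nhds_unique h1 h2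
  have hbt : ∃ C, ∀ L'' : ℕ, |(t : ℝ) / (L'' : ℝ)| ≤ C := by
    refine ⟨t, fun L'' => ?_⟩
    rw [abs_of_nonneg (by positivity)]
    rcases Nat.eq_zero_or_pos L'' with h0 | h0
    · rw [h0]
      simp
    · exact div_le_self (Nat.cast_nonneg t) (by exact_mod_cast h0)
  set R : ℝ := Lam d.U d.W e.P e.T d.β d.σ e.ys A + c₁ with hR
  have hfin := hmono' (fun _ => Lam d.U d.W e.P e.T d.β d.σ (e.yt t) A)
    (fun L'' => R + (t / (L'' : ℝ) + ∑ j, ul d.U (h j L''))) ⟨_, fun _ => le_rfl⟩ (by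
      obtain ⟨C1, hC1⟩ := hbt
      obtain ⟨C2, hC2⟩ := hsumb' Finset.univ
      exact ⟨|R| + (C1 + C2), fun L'' => (abs_add_le _ _).trans (add_le_add le_rfl
        ((abs_add_le _ _).trans (add_le_add (hC1 L'') (hC2 L''))))⟩)
    (Eventually.of_forall fun L'' => by
      have := hl1 L''
      change Lam d.U d.W e.P e.T d.β d.σ (e.yt t) A ≤
        R + (t / (L'' : ℝ) + ∑ j, ul d.U (h j L''))
      linarith)
  rw [hconst', hadd' (fun _ => R) _ ⟨_, fun _ => le_rfl⟩ (by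
      obtain ⟨C1, hC1⟩ := hbt
      obtain ⟨C2, hC2⟩ := hsumb' Finset.univ
      exact ⟨C1 + C2, fun L'' => (abs_add_le _ _).trans (add_le_add (hC1 L'') (hC2 L''))⟩),
    hadd' _ _ hbt (hsumb' Finset.univ), hconst', ht0, zero_add, hsum'] at hfin
  exact hfin

end Pool.Agent.H32.AG
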